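import Pool.Agent.H.MP_b27eb5_al.Main

namespace Pool.Agent.Results.MP_b27eb5_al.Q1

open Pool.Agent.H.MP_b27eb5_al

universe u

theorem result (F : Type u) [Field F] (h2 : (2 : F) ≠ 0) (T : Set (Fr F))
    (hT : LocAdm F T ∨ Adm F T)
    (A : Type u) [NonUnitalNonAssocRing A] [Module F A] [IsScalarTower F A A]
    [SMulCommClass F A A] (hA : Sat F A T) (hK : IsKokoris A) (hs : IsSimple F A) : IsFld A :=
  main h2 (hT.elim id locAdm_of_adm) hA hK hs

end Pool.Agent.Results.MP_b27eb5_al.Q1
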